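import Pool.Agent.RR.SchMain
import Pool.Agent.RR.Main

/-!
# A variety which is rational modulo every prime `p ≥ 5` and not rational over the algebraic numbers

All notions are those of Mathlib. The model is an affine hypersurface over `ℤ`.
-/

set_option autoImplicit false

open AlgebraicGeometry CategoryTheory CategoryTheory.Limits

namespace Pool.Agent.Results.MP_0a3790_ag.RationalModPrimes

theorem result : ∃ (X : Scheme.{0}) (π : X ⟶ Spec (.of ℤ)), IsAffine X ∧ IsSeparated π ∧
    LocallyOfFiniteType π ∧ QuasiCompact π ∧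
    GeometricallyIntegral (pullback.snd π (Spec.map (CommRingCat.ofHom (algebraMap ℤ ℚ)))) ∧
    ¬ Scheme.IsRationalOver
      (pullback.snd (pullback.snd π (Spec.map (CommRingCat.ofHom (algebraMap ℤ ℚ))))
        (Spec.map (CommRingCat.ofHom (algebraMap ℚ (AlgebraicClosure ℚ))))) ∧
    ∀ (p : ℕ) [Fact p.Prime], 5 ≤ p →
      IsIntegral (pullback π
        (Spec.map (CommRingCat.ofHom (algebraMap ℤ (AlgebraicClosure (ZMod p)))))) ∧
      Scheme.BirationalOver
        (pullback.snd π (Spec.map (CommRingCat.ofHom (algebraMap ℤ (AlgebraicClosure (ZMod p))))))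
        (𝔸(Fin 37; Spec (.of (AlgebraicClosure (ZMod p)))) ↘
          Spec (.of (AlgebraicClosure (ZMod p)))) :=
  Pool.Agent.RR.Sch.scheme_form Pool.Agent.RR.not_rat (fun p _ h5 => Pool.Agent.RR.rat_p p h5)

end Pool.Agent.Results.MP_0a3790_ag.RationalModPrimes
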